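import Mathlib
import Pool.Agent.N300.UN.Stubs

/-!
# Project UN: from the coordinates to all functions
-/

set_option autoImplicit false

open scoped ComplexConjugate

noncomputable section

namespace Pool.Agent.N726.UN

open Pool.Agent.H923R2.FP Pool.Agent.H923R2.FZ Pool.Agent.N300.UN

section

variable {n : ℕ} {B : Type} [CStarAlgebra B] (φ ψ : C(Cube n, ℂ) →⋆ₐ[ℂ] B)

/-- the functions controlled by the coordinates -/
def Wp (f : C(Cube n, ℂ)) : Prop := ∀ η : ℝ, 0 < η → ∃ δ : ℝ, 0 < δ ∧ ∀ v : unitary B,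
  (∀ l : Fin n, ‖φ (co l) * (v : B) - (v : B) * ψ (co l)‖ < δ) →
    ‖φ f * (v : B) - (v : B) * ψ f‖ < η

variable {φ ψ}

lemma nle (χ : C(Cube n, ℂ) →⋆ₐ[ℂ] B) (f : C(Cube n, ℂ)) : ‖χ f‖ ≤ ‖f‖ :=
  NonUnitalStarAlgHom.norm_apply_le χ f

lemma Wp.co (l : Fin n) : Wp φ ψ (co l) := fun η hη => ⟨η, hη, fun _ h => h l⟩

lemma Wp.const (c : ℂ) : Wp φ ψ (algebraMap ℂ _ c) := by
  intro η hη
  refine ⟨1, one_pos, fun v _ => ?_⟩
  rw [AlgHomClass.commutes, AlgHomClass.commutes, Algebra.commutes, sub_self, norm_zero]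
  exact hη

lemma Wp.add {f g : C(Cube n, ℂ)} (hf : Wp φ ψ f) (hg : Wp φ ψ g) : Wp φ ψ (f + g) := by
  intro η hη
  obtain ⟨δ₁, h1, h1'⟩ := hf (η / 2) (by positivity)
  obtain ⟨δ₂, h2, h2'⟩ := hg (η / 2) (by positivity)
  refine ⟨min δ₁ δ₂, lt_min h1 h2, fun v hv => ?_⟩
  have e : φ (f + g) * (v : B) - (v : B) * ψ (f + g) =
      (φ f * (v : B) - (v : B) * ψ f) + (φ g * (v : B) - (v : B) * ψ g) := by
    rw [map_add, map_add, add_mul, mul_add]
    abel
  rw [e]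
  have k1 := h1' v fun l => (hv l).trans_le (min_le_left _ _)
  have k2 := h2' v fun l => (hv l).trans_le (min_le_right _ _)
  refine (norm_add_le _ _).trans_lt ?_
  linarith

lemma Wp.mul {f g : C(Cube n, ℂ)} (hf : Wp φ ψ f) (hg : Wp φ ψ g) : Wp φ ψ (f * g) := by
  intro η hη
  have hK : 0 < ‖f‖ + ‖g‖ + 1 := by positivity
  obtain ⟨δ₁, h1, h1'⟩ := hf (η / (‖f‖ + ‖g‖ + 1)) (by positivity)
  obtain ⟨δ₂, h2, h2'⟩ := hg (η / (‖f‖ + ‖g‖ + 1)) (by positivity)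
  refine ⟨min δ₁ δ₂, lt_min h1 h2, fun v hv => ?_⟩
  have e : φ (f * g) * (v : B) - (v : B) * ψ (f * g) =
      φ f * (φ g * (v : B) - (v : B) * ψ g) + (φ f * (v : B) - (v : B) * ψ f) * ψ g := by
    rw [map_mul, map_mul, mul_sub, sub_mul]
    simp only [mul_assoc]
    abel
  rw [e]
  have k1 := (h1' v fun l => (hv l).trans_le (min_le_left _ _)).le
  have k2 := (h2' v fun l => (hv l).trans_le (min_le_right _ _)).le
  refine (norm_add_le _ _).trans_lt ?_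
  have m1 : ‖φ f * (φ g * (v : B) - (v : B) * ψ g)‖ ≤ ‖f‖ * (η / (‖f‖ + ‖g‖ + 1)) :=
    (norm_mul_le _ _).trans (mul_le_mul (nle φ f) k2 (norm_nonneg _) (norm_nonneg _))
  have m2 : ‖(φ f * (v : B) - (v : B) * ψ f) * ψ g‖ ≤ (η / (‖f‖ + ‖g‖ + 1)) * ‖g‖ :=
    (norm_mul_le _ _).trans (mul_le_mul k1 (nle ψ g) (norm_nonneg _) (by positivity))
  refine (add_le_add m1 m2).trans_lt ?_
  have e2 : ‖f‖ * (η / (‖f‖ + ‖g‖ + 1)) + η / (‖f‖ + ‖g‖ + 1) * ‖g‖ =
      η * ((‖f‖ + ‖g‖) / (‖f‖ + ‖g‖ + 1)) := by ring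
  rw [e2]
  have e3 : (‖f‖ + ‖g‖) / (‖f‖ + ‖g‖ + 1) < 1 := by
    rw [div_lt_one hK]; linarith
  calc η * ((‖f‖ + ‖g‖) / (‖f‖ + ‖g‖ + 1)) < η * 1 := mul_lt_mul_of_pos_left e3 hη
    _ = η := mul_one η

lemma Wp.star {f : C(Cube n, ℂ)} (hf : Wp φ ψ f) : Wp φ ψ (star f) := by
  intro η hη
  obtain ⟨δ, h1, h2⟩ := hf η hη
  refine ⟨δ, h1, fun v hv => ?_⟩
  have k := h2 v hv
  have e : ‖φ (Star.star f) * (v : B) - (v : B) * ψ (Star.star f)‖ =
      ‖φ f * (v : B) - (v : B) * ψ f‖ := by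
    have vs : (v : B) * Star.star (v : B) = 1 := Unitary.mul_star_self_of_mem v.2
    have sv : Star.star (v : B) * (v : B) = 1 := Unitary.star_mul_self_of_mem v.2
    rw [← norm_star, star_sub, star_mul, star_mul, map_star, map_star, star_star, star_star,
      ← CStarRing.norm_coe_unitary_mul v, ← CStarRing.norm_mul_coe_unitary _ v]
    congr 1
    have e1 : (v : B) * (Star.star (v : B) * φ f - ψ f * Star.star (v : B)) * (v : B) =
        ((v : B) * Star.star (v : B)) * φ f * (v : B) -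
          (v : B) * ψ f * (Star.star (v : B) * (v : B)) := by
      rw [mul_sub, sub_mul]
      simp only [mul_assoc]
    rw [e1, vs, sv, one_mul, mul_one]
  rw [e]
  exact k

lemma Wp.closed {f : C(Cube n, ℂ)} (hf : ∀ ε : ℝ, 0 < ε → ∃ g, Wp φ ψ g ∧ ‖f - g‖ < ε) :
    Wp φ ψ f := by
  intro η hη
  obtain ⟨g, hg, hfg⟩ := hf (η / 3) (by positivity)
  obtain ⟨δ, h1, h2⟩ := hg (η / 3) (by positivity)
  refine ⟨δ, h1, fun v hv => ?_⟩
  have k := h2 v hv
  have e : φ f * (v : B) - (v : B) * ψ f = φ (f - g) * (v : B) - (v : B) * ψ (f - g) +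
      (φ g * (v : B) - (v : B) * ψ g) := by
    rw [map_sub, map_sub, sub_mul, mul_sub]
    abel
  rw [e]
  refine (norm_add_le _ _).trans_lt ?_
  have m1 : ‖φ (f - g) * (v : B) - (v : B) * ψ (f - g)‖ ≤ ‖f - g‖ + ‖f - g‖ := by
    refine (norm_sub_le _ _).trans (add_le_add ?_ ?_)
    · rw [CStarRing.norm_mul_coe_unitary]
      exact nle φ _
    · rw [CStarRing.norm_coe_unitary_mul]
      exact nle ψ _
  linarith

lemma Wp.all (f : C(Cube n, ℂ)) : Wp φ ψ f := by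
  obtain ⟨A, hA⟩ : ∃ A : StarSubalgebra ℂ C(Cube n, ℂ),
    A = StarAlgebra.adjoin ℂ (Set.range fun l : Fin n => (Pool.Agent.N300.UN.co l : C(Cube n, ℂ))) :=
    ⟨_, rfl⟩
  have hsep : A.SeparatesPoints := by
    intro x y hxy
    obtain ⟨l, hl⟩ := Function.ne_iff.1 hxy
    refine ⟨Pool.Agent.N300.UN.co l, ⟨Pool.Agent.N300.UN.co l, ?_, rfl⟩, ?_⟩
    · show Pool.Agent.N300.UN.co l ∈ A
      rw [hA]
      exact StarAlgebra.subset_adjoin ℂ _ ⟨l, rfl⟩
    · intro h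
      apply hl
      have h2 : ((x l : ℝ) : ℂ) = ((y l : ℝ) : ℂ) := h
      exact Subtype.ext (by exact_mod_cast h2)
  have htop := ContinuousMap.starSubalgebra_topologicalClosure_eq_top_of_separatesPoints A hsep
  have hW : ∀ g ∈ A, Wp φ ψ g := by
    intro g hg
    rw [hA] at hg
    induction hg using StarAlgebra.adjoin_induction with
    | mem x hx =>
      obtain ⟨l, rfl⟩ := hx
      exact Wp.co l
    | algebraMap r => exact Wp.const r
    | add x y _ _ hx hy => exact hx.add hy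
    | mul x y _ _ hx hy => exact hx.mul hy
    | star x _ hx => exact hx.star
  refine Wp.closed fun ε hε => ?_
  have hf : f ∈ A.topologicalClosure := by rw [htop]; trivial
  have hf2 : f ∈ closure (A : Set C(Cube n, ℂ)) := hf
  obtain ⟨g, hg, hd⟩ := Metric.mem_closure_iff.1 hf2 ε hε
  exact ⟨g, hW g hg, by rwa [dist_eq_norm] at hd⟩

end

theorem t_COORD : S_COORD := by
  intro n B _ φ ψ h F ε hε
  have key : ∀ F : Finset C(Cube n, ℂ), ∃ δ : ℝ, 0 < δ ∧ ∀ v : unitary B,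
      (∀ l : Fin n, ‖φ (co l) * (v : B) - (v : B) * ψ (co l)‖ < δ) →
        ∀ f ∈ F, ‖φ f * (v : B) - (v : B) * ψ f‖ < ε := by
    classical
    intro F
    induction F using Finset.induction_on with
    | empty => exact ⟨1, one_pos, fun _ _ f hf => absurd hf (Finset.notMem_empty f)⟩
    | insert a s _ ih =>
      obtain ⟨δ₁, h1, h1'⟩ := ih
      obtain ⟨δ₂, h2, h2'⟩ := Wp.all (φ := φ) (ψ := ψ) a ε hε
      refine ⟨min δ₁ δ₂, lt_min h1 h2, fun v hv f hf => ?_⟩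
      rcases Finset.mem_insert.1 hf with rfl | hf
      · exact h2' v fun l => (hv l).trans_le (min_le_right _ _)
      · exact h1' v (fun l => (hv l).trans_le (min_le_left _ _)) f hf
  obtain ⟨δ, hδ, hk⟩ := key F
  obtain ⟨v, hv⟩ := h δ hδ
  refine ⟨v, fun f hf => ?_⟩
  have k := hk v hv f hf
  have vs : (v : B) * star (v : B) = 1 := Unitary.mul_star_self_of_mem v.2
  have sv : star (v : B) * (v : B) = 1 := Unitary.star_mul_self_of_mem v.2
  rw [← CStarRing.norm_mul_coe_unitary _ v, sub_mul, mul_assoc, sv, mul_one, ← norm_neg, neg_sub]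
  exact k

end Pool.Agent.N726.UN
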